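import Pool.Agent.Q203.CEA.Incomp

set_option autoImplicit false

open Pool.Agent.Q203.CEA

namespace Pool.Agent.Results.MP_418eb4_lc.Incomparable

/-- **Two classes of c.e. algebras with incomparable isomorphism relations.**  There are varieties
`𝒱`, `𝒲` (both of finite signature and without laws: sets with three constants, and sets) and
`n, m ≥ 1` (namely `n = 1`, `m = 5`) such that the isomorphism relations of the class of
`n`-generated c.e. algebras of `𝒱` and of the class of `m`-generated c.e. algebras of `𝒲` are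
incomparable under computable reducibility. -/
theorem result : ∃ (𝒱 𝒲 : Variety) (n m : ℕ), 1 ≤ n ∧ 1 ≤ m ∧
    {f | 𝒱.sig.isSymbol f = true}.Finite ∧ {f | 𝒲.sig.isSymbol f = true}.Finite ∧
    ¬ CRed (isoRel 𝒱 n) (isoRel 𝒲 m) ∧ ¬ CRed (isoRel 𝒲 m) (isoRel 𝒱 n) :=
  ⟨𝒜, ℬ, 1, 5, le_rfl, by norm_num, fin3, fin0, not_A_le_B, not_B_le_A⟩

end Pool.Agent.Results.MP_418eb4_lc.Incomparable
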